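import Pool.Agent.MQG.StmtsH

/-!
Row HBM (squad MQG): the mean of an element of the dual algebra is in the dual algebra.
-/

set_option autoImplicit false

namespace Pool.Agent.MQG.H41

open Pool.Agent.MQG MeasureTheory
open scoped InnerProductSpace InnerProduct Topology

/-- The integral of a continuous function with values in a closed subspace. -/
theorem integral_mem_sub {E : Type*} [NormedAddCommGroup E] [NormedSpace ℂ E] [CompleteSpace E]
    (S : Submodule ℂ E) (hS : IsClosed (S : Set E)) (F : ℝ → E) (hF : Continuous F)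
    (hmem : ∀ t, F t ∈ S) (hint : Integrable F) : ∫ t, F t ∈ S := by
  have : CompleteSpace S := hS.completeSpace_coe
  let G : ℝ → S := fun t => ⟨F t, hmem t⟩
  have hGc : Continuous G := Continuous.subtype_mk hF _
  have hG : Integrable G := hint.norm.mono' hGc.aestronglyMeasurable
    (Filter.Eventually.of_forall fun t => le_of_eq rfl)
  have h := S.subtypeL.integral_comp_comm hG
  have h' : ∫ t, F t = ((∫ t, G t : S) : E) := h
  rw [h']
  exact (∫ t, G t : S).2

/-- HBM. -/
theorem hbm (hcb : HcbStmt) : HbmStmt := by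
  intro ι M z b A hb hA
  obtain ⟨h1, h2⟩ := hcb ι M b hb
  have hGb : ∀ t, ‖M.V t * b * M.V (-t)‖ ≤ ‖b‖ := by
    intro t
    calc ‖M.V t * b * M.V (-t)‖ ≤ ‖M.V t * b‖ * ‖M.V (-t)‖ := norm_mul_le _ _
      _ ≤ (‖M.V t‖ * ‖b‖) * 1 := mul_le_mul (norm_mul_le _ _) (M.V_group.norm_le _) (norm_nonneg _)
        (by positivity)
      _ ≤ (1 * ‖b‖) * 1 := by
        have := M.V_group.norm_le t
        gcongr
      _ = ‖b‖ := by ring
  have hcont : Continuous fun t => gk 0 z t • (M.V t * b * M.V (-t)) := (continuous_gk 0 z).smul h2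
  have hint : Integrable fun t => gk 0 z t • (M.V t * b * M.V (-t)) := by
    refine ((integrable_gk 0 z).norm.mul_const ‖b‖).mono'
      hcont.aestronglyMeasurable (Filter.Eventually.of_forall fun t => ?_)
    rw [norm_smul]
    exact mul_le_mul_of_nonneg_left (hGb t) (norm_nonneg _)
  have hmem : ∀ t, gk 0 z t • (M.V t * b * M.V (-t)) ∈
      (Balg M.W).toNonUnitalSubalgebra.toSubmodule := fun t =>
    (Balg M.W).toNonUnitalSubalgebra.toSubmodule.smul_mem _ (h1 t)
  have hI := integral_mem_sub _ (isClosed_Balg M.W) _ hcont hmem hint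
  have hAI : A = ∫ t, gk 0 z t • (M.V t * b * M.V (-t)) := by
    ext1 y
    refine ext_inner_left ℂ fun u => ?_
    rw [hA u y]
    let L : Op ι →L[ℂ] ℂ := (innerSL ℂ u).comp (ContinuousLinearMap.apply ℂ (L2 ι) y)
    have h3 := L.integral_comp_comm hint
    change _ = L (∫ t, gk 0 z t • (M.V t * b * M.V (-t)))
    rw [← h3]
    refine integral_congr_ae (Filter.Eventually.of_forall fun t => ?_)
    change gk 0 z t • ⟪M.V (-t) u, b (M.V (-t) y)⟫_ℂ = L (gk 0 z t • (M.V t * b * M.V (-t)))
    rw [map_smul]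
    congr 1
    change ⟪M.V (-t) u, b (M.V (-t) y)⟫_ℂ = ⟪u, M.V t (b (M.V (-t) y))⟫_ℂ
    rw [← M.V_group.star_eq t, ContinuousLinearMap.star_eq_adjoint,
      ContinuousLinearMap.adjoint_inner_left]
  rw [hAI]
  exact hI

end Pool.Agent.MQG.H41
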