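import Pool.Agent.MQG.StmtsB

/-!
Row SMU (squad MQG): the product of two states is a state.
-/

set_option autoImplicit false

namespace Pool.Agent.MQG.H41

open Pool.Agent.MQG

/-- SMU. -/
theorem smu (stu : StuStmt) (vst : VstStmt) (pra : PraStmt) (prc : PrcStmt) : SmuStmt := by
  intro ι _ M κ WW hU μ ν hμ hν
  obtain ⟨κ₁, U, ξ, hA, hξ, e1⟩ := stu ι M κ WW hU μ hμ
  obtain ⟨κ₂, U', ξ', hA', hξ', e2⟩ := stu ι M κ WW hU ν hν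
  obtain ⟨ρ, hρ, e3⟩ := vst ι M κ WW hU (κ₁ × κ₂) (pr U U') (pra ι κ₁ κ₂ M.W U U' hA hA')
    (tn ξ ξ') (by rw [norm_tn, hξ, hξ', mul_one])
  exact ⟨ρ, hρ, by rw [e3, prc, e1, e2]⟩

end Pool.Agent.MQG.H41
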